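import Pool.Agent.Helper11.NH.Sheet
import Pool.Agent.H11ST.Asm
import Pool.Agent.Helper73.ST.Core
import Pool.Agent.Helper94.ST.Flux
import Pool.Agent.Helper27.ST.Ph
open MeasureTheory Metric Set Filter Topology Real
open scoped ENNReal NNReal

/-! # Row COUNT: a circle with at most five points (the phase argument with one exceptional radius) -/

namespace H11ST
namespace NH
open H11ST.Ph
set_option linter.unusedSectionVars false

variable {A S : Set E2} {x : E2} {r : ℝ}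

/-- GI with one exceptional radius -/
theorem gi_except (β : ℝ) (GI : GIat S x r) : ∀ (a b : ℝ), 0 ≤ a → a ≤ b → b < r → ∀ m : ℕ,
    (∀ ρ ∈ Ioo a b, ρ ≠ β → (m : ℕ∞) ≤ (S ∩ sphere x ρ).encard) →
    len S x a ^ 2 + (m : ℝ) ^ 2 * (b ^ 2 - a ^ 2) ≤ len S x b ^ 2 := by
  intro a b h0 hab hbr m h
  by_cases hβ : β ∈ Ioo a b
  · have h1 := GI a β h0 hβ.1.le (hβ.2.trans hbr) m
      (fun ρ hρ => h ρ ⟨hρ.1, hρ.2.trans hβ.2⟩ hρ.2.ne)
    have h2 := GI β b (h0.trans hβ.1.le) hβ.2.le hbr m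
      (fun ρ hρ => h ρ ⟨hβ.1.trans hρ.1, hρ.2⟩ hρ.1.ne')
    nlinarith
  · exact GI a b h0 hab hbr m (fun ρ hρ => h ρ hρ (by rintro rfl; exact hβ hρ))

/-- the abstract phase argument -/
theorem phase_sqE (β : ℝ) (L : LocAdm A S x r) (k M : ℕ) (q l c : ℕ → ℝ)
    (GI : ∀ (a b : ℝ), 0 ≤ a → a ≤ b → b < r → ∀ m : ℕ,
      (∀ ρ ∈ Ioo a b, ρ ≠ β → (m : ℕ∞) ≤ (S ∩ sphere x ρ).encard) →
      len S x a ^ 2 + (m : ℝ) ^ 2 * (b ^ 2 - a ^ 2) ≤ len S x b ^ 2)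
    (hc : ∀ m : ℕ, k ≤ m → m < M → ∀ ρ, 0 < ρ → ρ < r → (S ∩ sphere x ρ).encard = m →
      len S x ρ ≤ c m * ρ)
    (hc0 : ∀ m : ℕ, k ≤ m → m < M → 0 < c m ∧ c m < m)
    (hq1 : q k = 1) (hq : ∀ m, k ≤ m → m < M → q m ≤ q (m + 1))
    (hrec : ∀ m : ℕ, k ≤ m → m < M → (m : ℝ) ^ 2 * q m - l m ≤ q (m + 1) * ((m : ℝ) ^ 2 - c m ^ 2))
    (hl : ∀ m, k ≤ m → m < M → l (m + 1) ≤ c m ^ 2 * q (m + 1))
    {a : ℝ} (ha0 : 0 < a) (har : a < r) (hla : l k * a ^ 2 ≤ len S x a ^ 2)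
    (hcount : ∀ ρ ∈ Ioo a r, ρ ≠ β → (k : ℕ∞) ≤ (S ∩ sphere x ρ).encard) (j : ℕ) (hj : k + j ≤ M) :
    1 ≤ q (k + j) ∧
    (∀ ρ, 0 < ρ → ρ < r → ρ ≠ β → q (k + j) * a ^ 2 < ρ ^ 2 →
      ((k + j : ℕ) : ℕ∞) ≤ (S ∩ sphere x ρ).encard) ∧
    (∀ ρ, 0 < ρ → ρ < r → q (k + j) * a ^ 2 ≤ ρ ^ 2 →
      l (k + j) * a ^ 2 + ((k + j : ℕ) : ℝ) ^ 2 * (ρ ^ 2 - q (k + j) * a ^ 2) ≤ len S x ρ ^ 2) := by
  induction j with
  | zero =>
    simp only [add_zero, hq1, one_mul]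
    refine ⟨le_rfl, ?_, ?_⟩
    · intro ρ h0 h1 hβ h2
      exact hcount ρ ⟨lt_of_pow_lt_pow_left₀ 2 h0.le h2, h1⟩ hβ
    · intro ρ h0 h1 h2
      have h3 : a ≤ ρ := le_of_sq_le_sq h2 h0.le
      have h4 := GI a ρ ha0.le h3 h1 k (fun s hs hβ => hcount s ⟨hs.1, hs.2.trans h1⟩ hβ)
      linarith
  | succ j ih =>
    obtain ⟨i1, i2, i3⟩ := ih (by omega)
    have hk1 : k ≤ k + j := by omega
    have hk2 : k + j < M := by omega
    obtain ⟨c1, c2⟩ := hc0 (k + j) hk1 hk2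
    have q1 := hq (k + j) hk1 hk2
    have r1 := hrec (k + j) hk1 hk2
    have l1 := hl (k + j) hk1 hk2
    have s1 := hc (k + j) hk1 hk2
    rw [show k + (j + 1) = k + j + 1 by ring]
    set m := k + j with hm
    have hm0 : (0 : ℝ) < m := c1.trans c2
    have ha2 : 0 < a ^ 2 := by positivity
    have hq1' : 1 ≤ q (m + 1) := i1.trans q1
    have hcm : c m ^ 2 < (m : ℝ) ^ 2 := by
      exact pow_lt_pow_left₀ c2 c1.le (by norm_num)
    -- the number of points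
    have hcnt : ∀ ρ, 0 < ρ → ρ < r → ρ ≠ β → q (m + 1) * a ^ 2 < ρ ^ 2 →
        ((m + 1 : ℕ) : ℕ∞) ≤ (S ∩ sphere x ρ).encard := by
      intro ρ h0 h1 hβ h2
      have hqa : q m * a ^ 2 ≤ q (m + 1) * a ^ 2 := mul_le_mul_of_nonneg_right q1 ha2.le
      have h3 := i2 ρ h0 h1 hβ (lt_of_le_of_lt hqa h2)
      have h4 := i3 ρ h0 h1 (hqa.trans h2.le)
      have h5 : (S ∩ sphere x ρ).encard ≠ (m : ℕ∞) := by
        intro h
        have h6 := s1 ρ h0 h1 h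
        have h7 : len S x ρ ^ 2 ≤ (c m * ρ) ^ 2 := pow_le_pow_left₀ (len_nonneg S x ρ) h6 2
        have h8 : (m : ℝ) ^ 2 * (q m * a ^ 2) - l m * a ^ 2 ≤
            q (m + 1) * a ^ 2 * ((m : ℝ) ^ 2 - c m ^ 2) := by
          nlinarith
        have h9 : q (m + 1) * a ^ 2 * ((m : ℝ) ^ 2 - c m ^ 2) <
            ρ ^ 2 * ((m : ℝ) ^ 2 - c m ^ 2) :=
          mul_lt_mul_of_pos_right h2 (by linarith)
        nlinarith
      have h6 := lt_of_le_of_ne h3 (Ne.symm h5)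
      have := Order.add_one_le_of_lt h6
      exact_mod_cast this
    refine ⟨hq1', hcnt, ?_⟩
    intro ρ h0 h1 h2
    set s := √(q (m + 1)) * a with hs
    have hs0 : 0 < s := mul_pos (Real.sqrt_pos.2 (by linarith)) ha0
    have hs2 : s ^ 2 = q (m + 1) * a ^ 2 := by
      rw [hs, mul_pow, Real.sq_sqrt (by linarith)]
    have hsρ : s ≤ ρ := le_of_sq_le_sq (by rw [hs2]; exact h2) h0.le
    have hsr : s < r := lt_of_le_of_lt hsρ h1
    have hqa : q m * a ^ 2 ≤ s ^ 2 := by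
      rw [hs2]; exact mul_le_mul_of_nonneg_right q1 ha2.le
    have h4 := i3 s hs0 hsr hqa
    have h5 := GI s ρ hs0.le hsρ h1 (m + 1) (fun t ht hβ => hcnt t (hs0.trans ht.1) (ht.2.trans h1) hβ (by
      rw [← hs2]
      exact pow_lt_pow_left₀ ht.1 hs0.le (by norm_num)))
    rw [hs2] at h4 h5
    push_cast at h5 ⊢
    have h8 : (m : ℝ) ^ 2 * (q m * a ^ 2) - l m * a ^ 2 ≤
        q (m + 1) * a ^ 2 * ((m : ℝ) ^ 2 - c m ^ 2) := by
      nlinarith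
    have h9 : l (m + 1) * a ^ 2 ≤ c m ^ 2 * q (m + 1) * a ^ 2 :=
      mul_le_mul_of_nonneg_right l1 ha2.le
    nlinarith

/-- the final step -/
theorem phase_endE (β : ℝ) (L : LocAdm A S x r) (hA : IsClosed A) {M : ℕ} (hM : 7 ≤ M) {Q l a τ : ℝ}
    (ha0 : 0 < a) (hQ : 1 ≤ Q) (hτ : 0 < τ)
    (h1 : ∀ ρ, 0 < ρ → ρ < r → ρ ≠ β → Q * a ^ 2 < ρ ^ 2 → (M : ℕ∞) ≤ (S ∩ sphere x ρ).encard)
    (h2 : ∀ ρ, 0 < ρ → ρ < r → Q * a ^ 2 ≤ ρ ^ 2 →
      l * a ^ 2 + (M : ℝ) ^ 2 * (ρ ^ 2 - Q * a ^ 2) ≤ len S x ρ ^ 2)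
    (hlQ : l ≤ 4 * 3.1416 ^ 2 * Q)
    (hT : τ ^ 2 * ((M : ℝ) ^ 2 * Q - l) < (M : ℝ) ^ 2 - 4 * 3.1416 ^ 2) :
    τ * r < a := by
  by_contra hcon
  push Not at hcon
  have hr := L.rpos
  have hM' : (7 : ℝ) ≤ M := by exact_mod_cast hM
  have hM2 : (49 : ℝ) ≤ (M : ℝ) ^ 2 := by nlinarith
  have hpi := Real.pi_lt_d4
  have hpi0 := Real.pi_pos
  have hp2 : π ^ 2 ≤ 3.1416 ^ 2 := pow_le_pow_left₀ hpi0.le hpi.le 2
  set G : ℝ := (M : ℝ) ^ 2 - 4 * 3.1416 ^ 2 with hG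
  have hG0 : 0 < G := by rw [hG]; norm_num; linarith
  have ha2 : 0 < a ^ 2 := by positivity
  have haτ : a ^ 2 ≤ τ ^ 2 * r ^ 2 := by
    rw [← mul_pow]
    exact pow_le_pow_left₀ ha0.le hcon 2
  have hr2 : 0 < r ^ 2 := by positivity
  have hK : G * Q ≤ (M : ℝ) ^ 2 * Q - l := by rw [hG]; nlinarith
  have hK0 : 0 < (M : ℝ) ^ 2 * Q - l := lt_of_lt_of_le (by positivity) hK
  -- both bounds for a
  have e1 : ((M : ℝ) ^ 2 * Q - l) * a ^ 2 < G * r ^ 2 := by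
    calc ((M : ℝ) ^ 2 * Q - l) * a ^ 2 ≤ ((M : ℝ) ^ 2 * Q - l) * (τ ^ 2 * r ^ 2) :=
          mul_le_mul_of_nonneg_left haτ hK0.le
      _ = (τ ^ 2 * ((M : ℝ) ^ 2 * Q - l)) * r ^ 2 := by ring
      _ < G * r ^ 2 := mul_lt_mul_of_pos_right hT hr2
  set s := √(((M : ℝ) ^ 2 * Q - l) / G) * a with hs
  have hs0 : 0 < s := mul_pos (Real.sqrt_pos.2 (div_pos hK0 hG0)) ha0
  have hs2 : G * s ^ 2 = ((M : ℝ) ^ 2 * Q - l) * a ^ 2 := by
    rw [hs, mul_pow, Real.sq_sqrt (div_pos hK0 hG0).le]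
    field_simp
  have hsr : s < r := by
    refine lt_of_pow_lt_pow_left₀ 2 hr.le ?_
    have : G * s ^ 2 < G * r ^ 2 := by rw [hs2]; exact e1
    exact lt_of_mul_lt_mul_left this hG0.le
  obtain ⟨ρ, hρ1, hρ2, hβ⟩ : ∃ ρ, s < ρ ∧ ρ < r ∧ ρ ≠ β := by
    obtain ⟨ρ, h1, h2⟩ := exists_between hsr
    obtain ⟨ρ', h3, h4⟩ := exists_between h1
    by_cases h5 : ρ = β
    · exact ⟨ρ', h3, h4.trans h2, by rw [← h5]; exact h4.ne⟩
    · exact ⟨ρ, h1, h2, h5⟩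
  have hρ0 : 0 < ρ := hs0.trans hρ1
  have hρs : s ^ 2 < ρ ^ 2 := pow_lt_pow_left₀ hρ1 hs0.le (by norm_num)
  have hQs : Q * a ^ 2 ≤ s ^ 2 := by
    have : G * (Q * a ^ 2) ≤ G * s ^ 2 := by
      rw [hs2, ← mul_assoc]
      exact mul_le_mul_of_nonneg_right hK ha2.le
    exact le_of_mul_le_mul_left this hG0
  have h3 := h1 ρ hρ0 hρ2 hβ (lt_of_le_of_lt hQs hρs)
  have h4 := h2 ρ hρ0 hρ2 (hQs.trans hρs.le)
  have hne : (S ∩ sphere x ρ).Nonempty := by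
    rw [← Set.encard_pos]
    refine lt_of_lt_of_le ?_ h3
    exact_mod_cast (by omega : 0 < M)
  have h5 := len_circle L hA hρ0 hρ2 hne
  have h6 : len S x ρ ^ 2 ≤ (2 * π * ρ) ^ 2 := pow_le_pow_left₀ (len_nonneg S x ρ) h5 2
  have h7 : (2 * π * ρ) ^ 2 ≤ 4 * 3.1416 ^ 2 * ρ ^ 2 := by
    have := mul_le_mul_of_nonneg_right hp2 (sq_nonneg ρ)
    nlinarith
  have h8 : G * s ^ 2 < G * ρ ^ 2 := mul_lt_mul_of_pos_left hρs hG0
  rw [hs2] at h8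
  rw [hG] at h8
  nlinarith

/-- the phase argument with one exceptional radius -/
theorem ph_allE (β : ℝ) (k : ℕ) (hk : 2 ≤ k) (hk' : k ≤ 36) (lam τ : ℝ) (hτ : 0 < τ)
    (hlam : lam ≤ cT (k + 2) ^ 2) (h : τ ^ 2 * (((k + 2 : ℕ) : ℝ) ^ 2 - lam) < tT (k + 2))
    (L : LocAdm A S x r) (hA : IsClosed A)
    (GI : ∀ (a b : ℝ), 0 ≤ a → a ≤ b → b < r → ∀ m : ℕ,
      (∀ ρ ∈ Ioo a b, ρ ≠ β → (m : ℕ∞) ≤ (S ∩ sphere x ρ).encard) →
      len S x a ^ 2 + (m : ℝ) ^ 2 * (b ^ 2 - a ^ 2) ≤ len S x b ^ 2)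
    {a : ℝ} (ha0 : 0 < a) (har : a < r) (hla : lam * a ^ 2 ≤ len S x a ^ 2)
    (hcount : ∀ ρ ∈ Ioo a r, ρ ≠ β → ((k + 2 : ℕ) : ℕ∞) ≤ (S ∩ sphere x ρ).encard) :
    τ * r < a := by
  obtain ⟨c1, c2, c3⟩ := cT_facts
  set n := k + 2 with hn
  have hn4 : 4 ≤ n := by omega
  have hn38 : n ≤ 38 := by omega
  obtain ⟨d1, d2⟩ := c1 n hn4 (by omega)
  have d8 : cT n ^ 2 < (n : ℝ) ^ 2 := pow_lt_pow_left₀ d2 d1.le (by norm_num)
  have hu : 0 < uT (n + 1) := by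
    rcases Nat.lt_or_ge (n + 1) 40 with h1 | h1
    · exact (c3 (n + 1) (by omega) h1).1
    · omega
  set b : ℝ := ((n : ℝ) ^ 2 - lam) / ((n : ℝ) ^ 2 - cT n ^ 2) with hb
  have hb1 : 1 ≤ b := by
    rw [hb, one_le_div (by linarith)]; linarith
  have hbe : b * ((n : ℝ) ^ 2 - cT n ^ 2) = (n : ℝ) ^ 2 - lam := by
    rw [hb]; field_simp [(by linarith : (n : ℝ) ^ 2 - cT n ^ 2 ≠ 0)]
  -- the sequences
  set q : ℕ → ℝ := fun m => if m = n then 1 else b * uT m / uT (n + 1) with hq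
  set l : ℕ → ℝ := fun m => if m = n then lam else cT (m - 1) ^ 2 * (b * uT m / uT (n + 1)) with hl
  have q0 : q n = 1 := by simp [hq]
  have l0 : l n = lam := by simp [hl]
  have q1 : ∀ m, n < m → q m = b * uT m / uT (n + 1) := by
    intro m hm; simp only [hq]; rw [if_neg (by omega)]
  have l1 : ∀ m, n < m → l m = cT (m - 1) ^ 2 * (b * uT m / uT (n + 1)) := by
    intro m hm; simp only [hl]; rw [if_neg (by omega)]
  have q2 : q (n + 1) = b := by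
    rw [q1 _ (by omega)]; field_simp
  have hb0 : 0 < b := by linarith
  obtain ⟨e1, e2, e3⟩ := phase_sqE β L n 40 q l cT GI
    (fun m hm hM ρ h0 h1 hc => circle_save L hA m (by omega) hM ρ h0 h1 hc)
    (fun m hm hM => c1 m (by omega) hM) q0
    (by
      intro m hm hM
      rcases Nat.eq_or_lt_of_le hm with h1 | h1
      · rw [← h1, q0, q2]; exact hb1
      · rw [q1 m h1, q1 (m + 1) (by omega)]
        have := uT_mono m (by omega) hM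
        gcongr)
    (by
      intro m hm hM
      rcases Nat.eq_or_lt_of_le hm with h1 | h1
      · rw [← h1, q0, q2, l0, hbe]; linarith
      · rw [q1 m h1, q1 (m + 1) (by omega), l1 m h1]
        have h2 := (c3 m (by omega) hM).2
        have h3 : 0 < b / uT (n + 1) := div_pos hb0 hu
        have h4 := mul_le_mul_of_nonneg_left h2 h3.le
        calc (m : ℝ) ^ 2 * (b * uT m / uT (n + 1)) - cT (m - 1) ^ 2 * (b * uT m / uT (n + 1))
            = b / uT (n + 1) * (uT m * ((m : ℝ) ^ 2 - cT (m - 1) ^ 2)) := by ring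
          _ ≤ _ := h4
          _ = _ := by ring)
    (by
      intro m hm hM
      rw [l1 (m + 1) (by omega), q1 (m + 1) (by omega)]
      simp)
    ha0 har (by rw [l0]; exact hla) hcount (40 - n) (by omega)
  have h40 : n + (40 - n) = 40 := by omega
  rw [h40] at e1 e2 e3
  have hq40 : q 40 = b * uT 40 / uT (n + 1) := q1 40 (by omega)
  have hl40 : l 40 = cT 39 ^ 2 * q 40 := by rw [l1 40 (by omega), hq40]
  have hc39 : cT 39 ^ 2 ≤ 4 * 3.1416 ^ 2 := by norm_num [cT, cN]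
  refine phase_endE β L hA (M := 40) (by norm_num) ha0 e1 hτ e2 e3 ?_ ?_
  · rw [hl40]
    exact mul_le_mul_of_nonneg_right hc39 (by linarith)
  · rw [hl40, hq40]
    have hu40 : 0 < uT 40 := by norm_num [uT, uN]
    have hc39' : (0 : ℝ) < 40 ^ 2 - cT 39 ^ 2 := by norm_num [cT, cN]
    rw [tT, lt_div_iff₀ (by positivity)] at h
    have h5 : (0 : ℝ) < (n : ℝ) ^ 2 - cT n ^ 2 := by linarith
    rw [← hbe] at h
    have h6 : τ ^ 2 * (b * (uT 40 * (40 ^ 2 - cT 39 ^ 2))) <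
        uT (n + 1) * (40 ^ 2 - 4 * 3.1416 ^ 2) := by
      have : ((n : ℝ) ^ 2 - cT n ^ 2) * (τ ^ 2 * (b * (uT 40 * (40 ^ 2 - cT 39 ^ 2)))) <
          ((n : ℝ) ^ 2 - cT n ^ 2) * (uT (n + 1) * (40 ^ 2 - 4 * 3.1416 ^ 2)) := by
        calc _ = τ ^ 2 * (b * ((n : ℝ) ^ 2 - cT n ^ 2)) * (uT 40 * (40 ^ 2 - cT 39 ^ 2)) := by ring
          _ < _ := h
          _ = _ := by ring
      exact lt_of_mul_lt_mul_left this h5.le
    push_cast
    calc τ ^ 2 * (40 ^ 2 * (b * uT 40 / uT (n + 1)) - cT 39 ^ 2 * (b * uT 40 / uT (n + 1)))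
        = τ ^ 2 * (b * (uT 40 * (40 ^ 2 - cT 39 ^ 2))) / uT (n + 1) := by ring
      _ < _ := by
        rw [div_lt_iff₀ hu]
        calc _ < _ := h6
          _ = _ := by ring

/-- **COUNT** -/
theorem count : NH_COUNT := by
  classical
  intro A S r hS Y hY hYt
  have hgi : ST_GI 2 := gi 2 (Pool.Agent.Helper73.ST.core 2)
  have hfl : ST_FLUX := flux (Pool.Agent.Helper73.ST.core 2)
  have L : LocAdm A S 0 1 := hS.L.restrict one_pos (ball_subset_ball hS.r1.le)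
  obtain ⟨y0, hy0⟩ : Y.Nonempty := Finset.card_pos.1 (by rw [hY]; norm_num)
  have hT : ∀ y ∈ Y, ∃ u ε, Tri S y u ε := fun y hy => (hYt y hy).2
  have G : GIat S 0 1 := gi_at (by norm_num) hgi L hS.cl (hT y0 hy0)
  by_contra hcon
  push Not at hcon
  -- a tripod point on a smaller circle gives six points
  have hbig : ∀ ρ, ρ < 1 → ∀ z, 1 / 2 ≤ ‖z‖ → ‖z‖ < ρ → (∃ u ε, Tri S z u ε) →
      ((4 + 2 : ℕ) : ℕ∞) ≤ (S ∩ sphere (0 : E2) ρ).encard := by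
    intro ρ hρ z hz1 hz2 hTz
    have hzY : z ∉ Y := fun h => absurd (hYt z h).1 (not_lt.2 hz1)
    have hc : (insert z Y).card = 4 := by rw [Finset.card_insert_of_notMem hzY, hY]
    have := L.sphere_count hS.cl (insert z Y) (Finset.insert_nonempty _ _) (ρ₀ := ρ) (by
      intro w hw
      rcases Finset.mem_insert.1 hw with rfl | hw
      · exact mem_ball_zero_iff.2 hz2
      · exact mem_ball_zero_iff.2 ((hYt w hw).1.trans (lt_of_le_of_lt hz1 hz2))) (by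
      intro w hw
      rcases Finset.mem_insert.1 hw with rfl | hw
      · exact hTz
      · exact hT w hw) le_rfl hρ
    rw [hc] at this
    exact this
  -- the exceptional radius
  obtain ⟨β, hβ⟩ : ∃ β : ℝ, ∀ ρ ∈ Ioo (1 / 2 : ℝ) 1, ρ ≠ β →
      ((4 + 2 : ℕ) : ℕ∞) ≤ (S ∩ sphere (0 : E2) ρ).encard := by
    by_cases hex : ∃ β, β ∈ Ioo (1 / 2 : ℝ) 1 ∧
        (S ∩ sphere (0 : E2) β).encard < ((4 + 2 : ℕ) : ℕ∞)
    · obtain ⟨β, hβ1, hβ2⟩ := hex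
      have key : ∀ β', β' ∈ Ioo (1 / 2 : ℝ) 1 →
          (S ∩ sphere (0 : E2) β').encard < ((4 + 2 : ℕ) : ℕ∞) →
          ∃ z, ‖z‖ = β' ∧ ∃ u ε, Tri S z u ε := by
        intro β' h1 h2
        have h3 : (S ∩ sphere (0 : E2) β').encard ≤ 5 := by
          have h4 : (S ∩ sphere (0 : E2) β').encard < 5 + 1 := by exact_mod_cast h2
          exact Order.le_of_lt_add_one h4
        obtain ⟨z, hz, hTz⟩ := hcon β' h1.1 h1.2 h3
        exact ⟨z, mem_sphere_zero_iff_norm.1 hz, hTz⟩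
      refine ⟨β, fun ρ hρ hne => ?_⟩
      by_contra hlt
      push Not at hlt
      obtain ⟨z, hz, hTz⟩ := key ρ hρ hlt
      obtain ⟨w, hw, hTw⟩ := key β hβ1 hβ2
      rcases lt_or_gt_of_ne hne with h | h
      · exact absurd (hbig β hβ1.2 z (by rw [hz]; exact hρ.1.le) (by rw [hz]; exact h) hTz)
          (not_le.2 hβ2)
      · exact absurd (hbig ρ hρ.2 w (by rw [hw]; exact hβ1.1.le) (by rw [hw]; exact h) hTw)
          (not_le.2 hlt)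
    · push Not at hex
      exact ⟨0, fun ρ hρ _ => hex ρ hρ⟩
  have h1 := flux_one hgi hfl L hS.cl (hT y0 hy0) (a := 1 / 2) (by norm_num)
    (by rw [dist_zero_right]; exact (hYt y0 hy0).1.le)
  have h2 : dist y0 0 ^ 2 ≤ (1 / 2) ^ 2 := by
    rw [dist_zero_right]
    exact pow_le_pow_left₀ (norm_nonneg _) (hYt y0 hy0).1.le 2
  have h3 := ph_allE β 4 (by norm_num) (by norm_num) (3 / 4) (5032 / 10000) (by norm_num)
    (by norm_num [cT, cN]) (lt_trans (by norm_num) tT_vals.2.2.1) L hS.cl (gi_except β G)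
    (a := 1 / 2) (by norm_num) (by norm_num) (by linarith) hβ
  norm_num at h3

end NH
end H11ST
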